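import Pool.Agent.Helper1_NGM.Mai
import Pool.Agent.Helper21_NGM.WK
import Pool.Agent.Helper27_NGM.NEG
import Pool.Agent.Helper77_NGM.NGP
import Pool.Agent.Helper82_NGM.BND
import Pool.Agent.Helper56_NGM.PZE
import Pool.Agent.Helper56_NGM.GOO
import Pool.Agent.Helper68_NGM.HAR
import Pool.Agent.Helper68_NGM.GEN
import Pool.Agent.Helper44_NGM.Chi
import Pool.Agent.Helper92_NGM.BFO
import Pool.Agent.Helper49_NGM.BIL
import Pool.Agent.Helper62_NGM.DIM
import Pool.Agent.Helper81_NGM.REP
import Pool.Agent.Helper81_NGM.CHN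
import Pool.Agent.Helper47_NGM.Hrm
import Pool.Agent.Helper47_NGM.Clg
import Pool.Agent.Helper38_NGM.VIZ
import Pool.Agent.Helper41_NGM.KER
import Pool.Agent.Helper41_NGM.MOM
import Pool.Agent.Helper32_NGM.EXT
import Pool.Agent.Helper17_NGM.GRO
import Pool.Agent.Helper19_NGM.CSG
import Pool.Agent.Helper40_NGM.PSI

/-! Assembly of squad NGM: Gromov's theorem for groups with max, main theorem. -/

set_option autoImplicit false

universe u v

namespace Pool.Agent.NGM.H1

theorem bnd' : BndStmt.{u} := H82.bnd H21.wk (H77P.ngp H21.wk H27.neg)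

theorem pze' : PzeStmt.{u} := H56.pze H21.wk bnd'

theorem goo' : GooStmt.{u} := H56.goo pze'

theorem chi' : ChiStmt.{u} := H44.chi H21.wk H81.chn

theorem psi' : PsiStmt.{u} := H40.psi (H77P.ngp H21.wk H27.neg) bnd' pze' goo'

theorem hrm' : HrmStmt.{u} :=
  H47.hrm (H68.har psi') (H92.bfo H21.wk chi' (H68.gen H21.wk) H41.mom)
    (H62.dim (H49.bil H21.wk)) (H81.rep H21.wk (H49.bil H21.wk))

theorem viz' : VizStmt.{u} := H38.viz H47.clg

/-- Gromov's theorem for groups with the maximal condition on subgroups, growth bounded along a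
sequence of radii. -/
theorem gro' : GroStmt.{u} := H17.gro hrm' viz' H41.ker H32.ext

/-- Main theorem. -/
theorem mai' : MaiStmt.{u, v} := mai gro' (H47.vaqS hrm' viz') H19.csg

end Pool.Agent.NGM.H1
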