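import Pool.Agent.NGM.StmtsE
import Pool.Agent.Helper19_NGM.EBK

/-! Row FOL of squad NGM: almost invariant finite sets in transitive actions (layer cake). -/

set_option autoImplicit false

open scoped Classical Pointwise

universe u v

namespace Pool.Agent.NGM.H1

theorem layer {G : Type u} [Group G] {X : Type v} [MulAction G X] (S : Finset G) (x₀ : X)
    (F : Finset G) (hF : F.Nonempty) (d : ℝ) (h : ((bd S F).card : ℝ) ≤ d * F.card) :
    ∃ A : Finset X, A.Nonempty ∧ ((bd S A).card : ℝ) ≤ S.card * d * A.card := by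
  let φ : X → ℕ := fun x => (F.filter fun g => g • x₀ = x).card
  let I : Finset X := F.image fun g => g • x₀
  let A : ℕ → Finset X := fun t => I.filter fun x => t < φ x
  have hφI : ∀ x, 0 < φ x → x ∈ I := by
    intro x hx
    obtain ⟨g, hg⟩ := Finset.card_pos.1 hx
    obtain ⟨hg1, hg2⟩ := Finset.mem_filter.1 hg
    exact Finset.mem_image.2 ⟨g, hg1, hg2⟩
  have hφF : ∀ x, φ x ≤ F.card := fun x => Finset.card_filter_le _ _
  have hsumφ : ∑ x ∈ I, φ x = F.card :=
    (Finset.card_eq_sum_card_fiberwise fun g hg => Finset.mem_image_of_mem _ hg).symm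
  -- sum of the cards
  have hsum : ∑ t ∈ Finset.range F.card, (A t).card = F.card := by
    refine Eq.trans ?_ hsumφ
    simp only [A, Finset.card_filter]
    rw [Finset.sum_comm]
    refine Finset.sum_congr rfl fun x _ => ?_
    rw [← Finset.card_filter]
    have : (Finset.range F.card).filter (fun t => t < φ x) = Finset.range (φ x) := by
      ext t
      simp only [Finset.mem_filter, Finset.mem_range]
      have := hφF x
      omega
    rw [this, Finset.card_range]
  have hone : ∀ s ∈ S, ∑ t ∈ Finset.range F.card, ((A t).filter fun x => s • x ∉ A t).card ≤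
      (bd S F).card := by
    intro s hs
    have h1 : ∀ t ∈ Finset.range F.card, ((A t).filter fun x => s • x ∉ A t).card ≤
        (I.filter fun x => φ (s • x) ≤ t ∧ t < φ x).card := by
      intro t _
      refine Finset.card_le_card fun x hx => ?_
      obtain ⟨hx1, hx2⟩ := Finset.mem_filter.1 hx
      obtain ⟨hx3, hx4⟩ := Finset.mem_filter.1 hx1
      refine Finset.mem_filter.2 ⟨hx3, ?_, hx4⟩
      by_contra h5
      push Not at h5
      exact hx2 (Finset.mem_filter.2 ⟨hφI _ (by omega), h5⟩)
    have h2 : ∀ x, φ x ≤ φ (s • x) + (F.filter fun g => g • x₀ = x ∧ s * g ∉ F).card := by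
      intro x
      have h3 : (F.filter fun g => g • x₀ = x) ⊆
          (F.filter fun g => g • x₀ = x ∧ s * g ∈ F) ∪
          (F.filter fun g => g • x₀ = x ∧ s * g ∉ F) := by
        intro g hg
        obtain ⟨hg1, hg2⟩ := Finset.mem_filter.1 hg
        by_cases h4 : s * g ∈ F
        · exact Finset.mem_union_left _ (Finset.mem_filter.2 ⟨hg1, hg2, h4⟩)
        · exact Finset.mem_union_right _ (Finset.mem_filter.2 ⟨hg1, hg2, h4⟩)
      have h4 : (F.filter fun g => g • x₀ = x ∧ s * g ∈ F).card ≤ φ (s • x) := by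
        refine Finset.card_le_card_of_injOn (fun g => s * g) ?_ ?_
        · intro g hg
          obtain ⟨_, hg2, hg3⟩ := Finset.mem_filter.1 (Finset.mem_coe.1 hg)
          exact Finset.mem_coe.2 (Finset.mem_filter.2 ⟨hg3, by rw [mul_smul, hg2]⟩)
        · intro a _ b _ hab
          exact mul_left_cancel hab
      calc φ x ≤ _ := Finset.card_le_card h3
        _ ≤ _ := Finset.card_union_le _ _
        _ ≤ _ := Nat.add_le_add_right h4 _
    calc ∑ t ∈ Finset.range F.card, ((A t).filter fun x => s • x ∉ A t).card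
        ≤ ∑ t ∈ Finset.range F.card, (I.filter fun x => φ (s • x) ≤ t ∧ t < φ x).card :=
          Finset.sum_le_sum h1
      _ = ∑ x ∈ I, ((Finset.range F.card).filter fun t => φ (s • x) ≤ t ∧ t < φ x).card := by
          simp only [Finset.card_filter]
          rw [Finset.sum_comm]
      _ ≤ ∑ x ∈ I, (F.filter fun g => g • x₀ = x ∧ s * g ∉ F).card := by
          refine Finset.sum_le_sum fun x _ => ?_
          have h5 : ((Finset.range F.card).filter fun t => φ (s • x) ≤ t ∧ t < φ x) ⊆
              Finset.Ico (φ (s • x)) (φ x) := by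
            intro t ht
            exact Finset.mem_Ico.2 (Finset.mem_filter.1 ht).2
          have h6 := Finset.card_le_card h5
          rw [Nat.card_Ico] at h6
          have := h2 x
          omega
      _ = (F.filter fun g => s * g ∉ F).card := by
          rw [Finset.card_eq_sum_card_fiberwise (s := F.filter fun g => s * g ∉ F)
            (t := I) (f := fun g => g • x₀)
            (fun g hg => Finset.mem_image_of_mem _ (Finset.mem_filter.1 (Finset.mem_coe.1 hg)).1)]
          refine Finset.sum_congr rfl fun x _ => ?_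
          rw [Finset.filter_filter]
          refine congrArg Finset.card (Finset.filter_congr fun g _ => ?_)
          exact and_comm
      _ ≤ (bd S F).card := by
          refine Finset.card_le_card fun g hg => ?_
          obtain ⟨hg1, hg2⟩ := Finset.mem_filter.1 hg
          exact Finset.mem_filter.2 ⟨hg1, s, hs, hg2⟩
  have hbd : ∀ t, (bd S (A t)).card ≤ ∑ s ∈ S, ((A t).filter fun x => s • x ∉ A t).card := by
    intro t
    have h1 : bd S (A t) ⊆ S.biUnion fun s => (A t).filter fun x => s • x ∉ A t := by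
      intro x hx
      obtain ⟨hx1, s, hs, hx2⟩ := Finset.mem_filter.1 hx
      exact Finset.mem_biUnion.2 ⟨s, hs, Finset.mem_filter.2 ⟨hx1, hx2⟩⟩
    exact (Finset.card_le_card h1).trans Finset.card_biUnion_le
  have htot : ∑ t ∈ Finset.range F.card, (bd S (A t)).card ≤ S.card * (bd S F).card := by
    calc ∑ t ∈ Finset.range F.card, (bd S (A t)).card
        ≤ ∑ t ∈ Finset.range F.card, ∑ s ∈ S, ((A t).filter fun x => s • x ∉ A t).card :=
          Finset.sum_le_sum fun t _ => hbd t
      _ = ∑ s ∈ S, ∑ t ∈ Finset.range F.card, ((A t).filter fun x => s • x ∉ A t).card :=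
          Finset.sum_comm
      _ ≤ ∑ s ∈ S, (bd S F).card := Finset.sum_le_sum hone
      _ = _ := by simp
  by_contra hcon
  push Not at hcon
  have hle : ∀ t ∈ Finset.range F.card,
      S.card * d * ((A t).card : ℝ) ≤ ((bd S (A t)).card : ℝ) := by
    intro t _
    rcases (A t).eq_empty_or_nonempty with h0 | h0
    · rw [h0]; simp
    · exact (hcon _ h0).le
  obtain ⟨g₀, hg₀⟩ := hF
  have hFpos : 0 < F.card := Finset.card_pos.2 ⟨g₀, hg₀⟩
  have hA0 : (A 0).Nonempty := by
    refine ⟨g₀ • x₀, Finset.mem_filter.2 ⟨Finset.mem_image_of_mem _ hg₀, ?_⟩⟩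
    exact Finset.card_pos.2 ⟨g₀, Finset.mem_filter.2 ⟨hg₀, rfl⟩⟩
  have hlt : ∑ t ∈ Finset.range F.card, S.card * d * ((A t).card : ℝ) <
      ∑ t ∈ Finset.range F.card, ((bd S (A t)).card : ℝ) :=
    Finset.sum_lt_sum hle ⟨0, Finset.mem_range.2 hFpos, hcon _ hA0⟩
  rw [← Finset.mul_sum] at hlt
  have e1 : ∑ t ∈ Finset.range F.card, ((A t).card : ℝ) = F.card := by exact_mod_cast hsum
  have e2 : ∑ t ∈ Finset.range F.card, ((bd S (A t)).card : ℝ) ≤ S.card * (bd S F).card := by
    exact_mod_cast htot
  rw [e1] at hlt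
  have e3 : (S.card : ℝ) * (bd S F).card ≤ S.card * (d * F.card) :=
    mul_le_mul_of_nonneg_left h (Nat.cast_nonneg _)
  nlinarith [hlt, e2, e3]

/-- Foelner sets in `X` from the Foelner condition of `G` -/
theorem fol {G : Type u} [Group G] {X : Type v} [MulAction G X] (x₀ : X) (hG : NG.Folner G)
    {S : Finset G} (hS : GenSet S) (e : ℝ) (he : 0 < e) : ∃ A : Finset X, A.Nonempty ∧
      ((bd S A).card : ℝ) ≤ e * A.card := by
  have hSpos : (0 : ℝ) < S.card := by exact_mod_cast Finset.card_pos.2 ⟨1, hS.one⟩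
  obtain ⟨F, hF, hb⟩ := H19.left_folner hG hS (e / S.card) (div_pos he hSpos)
  obtain ⟨A, hA, hbA⟩ := layer (X := X) S x₀ F hF _ hb
  refine ⟨A, hA, hbA.trans (le_of_eq ?_)⟩
  rw [mul_div_cancel₀ _ hSpos.ne']

end Pool.Agent.NGM.H1
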