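import Pool.Agent.NGM.StmtsE
import Pool.Agent.Helper1_NGM.Fol
import Pool.Agent.Helper19_NGM.CTR
import Pool.Agent.Helper19_NGM.TRG
import Pool.Agent.Helper19_NGM.VPG
import Pool.Agent.Helper19_NGM.EBK
import Pool.Agent.Helper47_NGM.Vaq
import Pool.Agent.Helper91_NGM.AsmWb
import Pool.Agent.Helper63_NGR.Fgs

/-! Assembly of squad NGM: row MAI. -/

set_option autoImplicit false

open scoped Classical Pointwise

universe u v

namespace Pool.Agent.NGM.H1

theorem iso_two {G : Type u} [Group G] {X : Type v} [MulAction G X] {S : Finset G} {D : ℕ}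
    (hD : D ≤ 2) (h : Iso S X D) : Iso S X 2 := by
  intro e he
  interval_cases D
  · obtain ⟨A, _, hA⟩ := h (1 / 2) (by norm_num)
    simp at hA
    norm_num at hA
  · obtain ⟨A, hA1, hA⟩ := h (1 / 2) (by norm_num)
    refine ⟨A, hA1, ?_⟩
    have h1 : ((bd S A).card : ℝ) ≤ 1 / 2 := by simpa using hA
    have h2 : (bd S A).card = 0 := by
      have : ((bd S A).card : ℝ) < 1 := by linarith
      have : (bd S A).card < 1 := by exact_mod_cast this
      omega
    rw [h2]
    simp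
    positivity
  · exact h e he

/-- from almost invariant sets and W1 to Iso -/
theorem iso_of_w1 {G : Type u} [Group G] {X : Type v} [MulAction G X] (x₀ : X)
    (hG : NG.Folner G) {S : Finset G} (hS : GenSet S) {D : ℕ} (h : W1 S X D) : Iso S X D := by
  intro e he
  obtain ⟨d, hd, W, hW⟩ := h e he
  obtain ⟨F, hF, hF2⟩ := fol x₀ hG hS d hd
  obtain ⟨A, _, hA⟩ := hW F hF hF2
  exact ⟨A, hA⟩

theorem mai (hGRO : GroStmt.{u}) (hVAQ : VaqStmt.{u}) (hCSG : CsgStmt.{u}) : MaiStmt.{u, v} := by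
  intro G _ X _ _ S D hS hyp
  have hfg : ∀ H : Subgroup G, H.FG := by
    rcases hyp with ⟨h, _⟩ | ⟨h, _⟩
    · exact fun H => (NGR.H63.fgs h H).1
    · exact h
  obtain ⟨s, hs, hsL, hbot⟩ := H19.ctr G X hfg
  have hiso : ∀ L ∈ s, Iso S (G ⧸ L) D := by
    intro L hL
    rcases hyp with ⟨h, hW⟩ | ⟨_, hW⟩
    · exact iso_of_w1 ((1 : G) : G ⧸ L) (NG.folner_of_noetherian h) hS
        (H19.trg G X L S D (hsL L hL).2 hW)
    · exact H19.trh G X L S D (hsL L hL).2 hW
  have hsurj : ∀ L : Subgroup G, Function.Surjective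
      (QuotientGroup.mk' (L.subgroupOf (Subgroup.normalizer (L : Set G)))) :=
    fun L => QuotientGroup.mk'_surjective _
  have hker : ∀ (L : Subgroup G) (n : Subgroup.normalizer (L : Set G)),
      QuotientGroup.mk' (L.subgroupOf (Subgroup.normalizer (L : Set G))) n = 1 ↔ (n : G) ∈ L := by
    intro L n
    rw [QuotientGroup.mk'_apply, QuotientGroup.eq_one_iff, Subgroup.mem_subgroupOf]
  have hQfg : ∀ (L : Subgroup G) (H : Subgroup (NQ L)), H.FG := fun L H =>
    H91.fg_quot hfg _ (hsurj L) H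
  have hQ : ∀ L ∈ s, ∀ K : Finset (NQ L), Iso K (NQ L) D := fun L hL K =>
    hCSG G L S D hS (hsL L hL).1 (hiso L hL) K
  refine ⟨?_, fun hD => ?_⟩
  · refine H19.vpg G s hfg hs hbot fun L hL => ?_
    refine ⟨Subgroup.normalizer (L : Set G), NQ L, inferInstance, QuotientGroup.mk' _,
      (hsL L hL).1, hsurj L, hker L, ?_⟩
    obtain ⟨K, hK⟩ := H19.exists_genSet (hQfg L ⊤)
    obtain ⟨D', hD'⟩ := H19.core hK D (fun e he => hQ L hL K e he)
    exact hGRO _ (hQfg L) K D' hK hD'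
  · refine H47.vag G s hfg hs hbot fun L hL => ⟨(hsL L hL).1, ?_⟩
    obtain ⟨K, hK⟩ := H19.exists_genSet (hQfg L ⊤)
    exact hVAQ (NQ L) K (hQfg L) hK (iso_two hD (hQ L hL K))

end Pool.Agent.NGM.H1
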