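import Mathlib
import Pool.Agent.Helper41_NG.TrC
import Pool.Agent.Helper63_NGR.Fgs

/-!
# Noetherian integral group rings of groups of bounded automorphisms of rooted trees

The vertices of the rooted tree are the finite words List X over a finite alphabet X.
-/

set_option autoImplicit false

namespace Pool.Agent.Results.MP_c602ad_al.BoundedAutomata

variable {X : Type*}

/-- A permutation of the set of finite words which preserves the length and the initial segments:
an automorphism of the rooted tree of words. -/
structure IsTreeAut (g : Equiv.Perm (List X)) : Prop where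
  len : ∀ l, (g l).length = l.length
  tak : ∀ l n, g (l.take n) = (g l).take n

/-- The section (state) of g at the vertex v: g (v w) = g (v) (section w). -/
def sec (g : Equiv.Perm (List X)) (v w : List X) : List X := (g (v ++ w)).drop v.length

/-- The section of g at the vertex v is nontrivial. -/
def Act (g : Equiv.Perm (List X)) (v : List X) : Prop := ∃ w, sec g v w ≠ w

/-- Bounded: the number of vertices of level n at which the section of g is nontrivial is at most
C, for a number C which does not depend on n. -/
def Bounded (g : Equiv.Perm (List X)) : Prop :=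
  ∃ C : ℕ, ∀ n : ℕ, {v : List X | v.length = n ∧ Act g v}.ncard ≤ C

/-- Finite-state: g has only finitely many sections (g is defined by a finite automaton). -/
def FiniteState (g : Equiv.Perm (List X)) : Prop := (Set.range (sec g)).Finite

/-- The section of g at p is finitary of depth at most D: the sections of g at the vertices
p y with y of length D are trivial. -/
def DepthLe (g : Equiv.Perm (List X)) (p : List X) (D : ℕ) : Prop :=
  ∀ y : List X, y.length = D → ¬ Act g (p ++ y)

/-- The depths of the finitary sections of g are bounded. -/
def UniformDepth (g : Equiv.Perm (List X)) : Prop :=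
  ∃ D : ℕ, ∀ p : List X, (∃ D', DepthLe g p D') → DepthLe g p D

theorem isTreeAut_tr {g : Equiv.Perm (List X)} (h : IsTreeAut g) : NG.Tree.IsTreeAut g :=
  ⟨h.len, h.tak⟩

theorem act_iff {g : Equiv.Perm (List X)} (h : IsTreeAut g) (v : List X) :
    Act g v ↔ NG.Tree.Act g v := by
  unfold Act NG.Tree.Act
  refine exists_congr fun w => ?_
  rw [(isTreeAut_tr h).app]
  exact (not_congr (List.append_cancel_left_eq (g v) _ _).to_iff).symm

theorem depthLe_iff {g : Equiv.Perm (List X)} (h : IsTreeAut g) (p : List X) (D : ℕ) :
    DepthLe g p D ↔ NG.Tree.DepthLe g p D :=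
  forall_congr' fun _ => forall_congr' fun _ => not_congr (act_iff h _)

theorem bounded_tr {g : Equiv.Perm (List X)} (h : IsTreeAut g) (hb : Bounded g) :
    NG.Tree.Bounded g := by
  obtain ⟨C, hC⟩ := hb
  refine ⟨C, fun n => ?_⟩
  have h1 : {v : List X | v.length = n ∧ NG.Tree.Act g v} =
      {v : List X | v.length = n ∧ Act g v} := by
    ext v
    exact and_congr_right fun _ => (act_iff h v).symm
  rw [h1]
  exact hC n

theorem uniformDepth_tr {g : Equiv.Perm (List X)} (h : IsTreeAut g)
    (hd : FiniteState g ∨ UniformDepth g) : NG.Tree.UniformDepth g := by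
  rcases hd with hd | ⟨D, hD⟩
  · exact NG.Tree.uniformDepth_of_finiteState (isTreeAut_tr h) hd
  · refine ⟨D, fun p hp => ?_⟩
    rw [← depthLe_iff h]
    refine hD p ?_
    obtain ⟨D', hD'⟩ := hp
    exact ⟨D', (depthLe_iff h p D').mpr hD'⟩

/-- THEOREM. Let G be a group acting faithfully by bounded automorphisms on a regular rooted tree of
finite degree, such that each element of G acts by a finite-state automorphism or, more generally,
by an automorphism whose finitary sections have bounded depth. If the integral group ring of G is
Noetherian, or if only all the subgroups of G are finitely generated, then G has a finitely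
generated abelian subgroup of finite index (so G is almost polycyclic). -/
theorem result {X : Type*} [Finite X] {G : Type*} [Group G]
    (φ : G →* Equiv.Perm (List X)) (hinj : Function.Injective φ)
    (haut : ∀ g, IsTreeAut (φ g)) (hbd : ∀ g, Bounded (φ g))
    (hfs : ∀ g, FiniteState (φ g) ∨ UniformDepth (φ g))
    (hG : IsNoetherianRing (MonoidAlgebra ℤ G) ∨ ∀ H : Subgroup G, H.FG) :
    ∃ H : Subgroup G, H.index ≠ 0 ∧ H.FG ∧ ∀ a ∈ H, ∀ b ∈ H, a * b = b * a := by
  have hfg : ∀ H : Subgroup G, H.FG := by
    rcases hG with hG | hG
    · exact fun H => (NGR.H63.fgs hG H).1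
    · exact hG
  rcases isEmpty_or_nonempty X with hX | hX
  · refine ⟨⊤, by simp, hfg _, fun a _ b _ => hinj ?_⟩
    ext1 l
    exact Subsingleton.elim _ _
  · obtain ⟨L, hL, hc⟩ := NG.Tree.virtually_abelian φ (fun g => isTreeAut_tr (haut g)) hinj hfg
      (fun g => bounded_tr (haut g) (hbd g)) (fun g => uniformDepth_tr (haut g) (hfs g))
    exact ⟨L, hL.index_ne_zero, hfg L, hc⟩

end Pool.Agent.Results.MP_c602ad_al.BoundedAutomata
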