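import Mathlib
import Pool.Agent.Helper41_NG.DynC
import Pool.Agent.Helper63_NGR.Fgs

/-!
# Noetherian integral group rings of groups of piecewise virtually cyclic homeomorphisms
-/

set_option autoImplicit false

namespace Pool.Agent.Results.MP_c602ad_al.FullGroups

open Filter Topology

/-- THEOREM. Let Λ be a virtually cyclic group acting by homeomorphisms on a compact Hausdorff
space X, and let G be a group acting faithfully by homeomorphisms on X such that, for a countable
set C of exceptional points,
* near each point x which is outside C, or whose G-orbit is finite, each element of G is given by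
  an element of Λ;
* if there are exceptional points, then for each g in G there is a finite subset F of Λ such that
  g x is in F x for all x.
(For C empty these are the subgroups of the topological full group of Λ.)
If the integral group ring of G is Noetherian, or if only all the subgroups of G are finitely
generated, then G has a finitely generated abelian subgroup of finite index. -/
theorem result {X : Type*} [TopologicalSpace X] [CompactSpace X] [T2Space X]
    {Λ : Type*} [Group Λ] [MulAction Λ X] [ContinuousConstSMul Λ X]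
    (hΛ : ∃ φ : Λ, (Subgroup.zpowers φ).index ≠ 0)
    {G : Type*} [Group G] [MulAction G X] [ContinuousConstSMul G X] [FaithfulSMul G X]
    (C : Set X) (hC : C.Countable)
    (hloc : ∀ x : X, (x ∉ C ∨ (MulAction.orbit G x).Finite) →
      ∀ g : G, ∃ l : Λ, ∀ᶠ y in 𝓝 x, g • y = l • y)
    (hfin : C.Nonempty → ∀ g : G, ∃ F : Set Λ, F.Finite ∧ ∀ x : X, ∃ l ∈ F, g • x = l • x)
    (hG : IsNoetherianRing (MonoidAlgebra ℤ G) ∨ ∀ H : Subgroup G, H.FG) :
    ∃ H : Subgroup G, H.index ≠ 0 ∧ H.FG ∧ ∀ a ∈ H, ∀ b ∈ H, a * b = b * a := by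
  classical
  have hfg : ∀ H : Subgroup G, H.FG := by
    rcases hG with hG | hG
    · exact fun H => (NGR.H63.fgs hG H).1
    · exact hG
  obtain ⟨φ, hφ⟩ := hΛ
  have hfin' : ∀ g : G, ∃ F : Finset Λ, ∀ x : X, ∃ l ∈ F, g • x = l • x := by
    intro g
    rcases C.eq_empty_or_nonempty with rfl | hne
    · choose l hl using fun x : X => hloc x (Or.inl (Set.notMem_empty x)) g
      obtain ⟨T, hT⟩ := CompactSpace.elim_nhds_subcover
        (fun x : X => {y : X | g • y = l x • y}) (fun x => hl x)
      refine ⟨T.image l, fun y => ?_⟩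
      have hy : y ∈ ⋃ x ∈ T, {y : X | g • y = l x • y} := by
        rw [hT]
        trivial
      simp only [Set.mem_iUnion] at hy
      obtain ⟨x, hxT, hxy⟩ := hy
      exact ⟨l x, Finset.mem_image_of_mem _ hxT, hxy⟩
    · obtain ⟨F, hF, h⟩ := hfin hne g
      refine ⟨hF.toFinset, fun x => ?_⟩
      obtain ⟨l, hl, hx⟩ := h x
      exact ⟨l, hF.mem_toFinset.mpr hl, hx⟩
  obtain ⟨L, hL, hc⟩ := NG.Dyn.full (Λ := Λ) hfg φ ⟨hφ⟩ hfin' C hC hloc
  exact ⟨L, hL.index_ne_zero, hfg L, hc⟩

end Pool.Agent.Results.MP_c602ad_al.FullGroups
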